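import Mathlib.Analysis.InnerProductSpace.Adjoint
import Mathlib.Analysis.InnerProductSpace.PiL2
import Mathlib.Analysis.InnerProductSpace.ProdL2
import Mathlib.Analysis.Convex.Basic
import Mathlib.Geometry.Manifold.Instances.Sphere
import Mathlib.MeasureTheory.Constructions.HaarToSphere
import Mathlib.Analysis.Normed.Lp.MeasurableSpace
import Mathlib.MeasureTheory.Measure.Haar.InnerProductSpace
import Mathlib.MeasureTheory.Function.Jacobian
import Mathlib.Analysis.Calculus.FDeriv.Measurable
import Mathlib.Analysis.SpecialFunctions.Gaussian.FourierTransform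
import Mathlib.Data.ZMod.Basic

/-!
# Project HO (MP_19c155_gt): Hopf fields minimise the volume among odd fields

Definitions for the pieces.  Statements: `HO/St/Stubs.lean`; hints: `/team-store/HO_hints.md`.
-/

open MeasureTheory Set Metric Filter Module
open scoped NNReal Topology RealInnerProductSpace ENNReal Real ContDiff Manifold

namespace Pool.Agent.Helper19.HO

/-! ### Borsuk-Ulam: cochains modulo 2 on tuples of points -/

section BU

variable {V : Type*} [AddCommGroup V] [Module ℝ V]

/-- The vertices of the simplex of the barycentric subdivision of the tuple `v` given by the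
ordering `s`: the barycentres of `v (s 0)`, ..., `v (s j)`. -/
noncomputable def bary {k : ℕ} (v : Fin (k + 1) → V) (s : Equiv.Perm (Fin (k + 1)))
    (j : Fin (k + 1)) : V := (((j : ℕ) : ℝ) + 1)⁻¹ • ∑ i ∈ Finset.Iic j, v (s i)

/-- barycentric subdivision of a cochain. -/
noncomputable def sd {k : ℕ} (a : (Fin (k + 1) → V) → ZMod 2) (v : Fin (k + 1) → V) : ZMod 2 :=
  ∑ s : Equiv.Perm (Fin (k + 1)), a (bary v s)

/-- coboundary. -/
def cob {V : Type*} {k : ℕ} (a : (Fin (k + 1) → V) → ZMod 2) (v : Fin (k + 2) → V) : ZMod 2 :=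
  ∑ i : Fin (k + 2), a (v ∘ i.succAbove)

/-- strictly increasing absolute values and alternating signs `+ - + ...`. -/
def IsAlt {k : ℕ} (l : Fin k → ℤ) : Prop :=
  StrictMono (fun i => |l i|) ∧ ∀ i : Fin k, 0 < (-1) ^ (i : ℕ) * l i

open Classical in
/-- `1` if some ordering of the labels `l` is alternating, `0` otherwise. -/
noncomputable def altP {k : ℕ} (l : Fin k → ℤ) : ZMod 2 :=
  ∑ s : Equiv.Perm (Fin k), if IsAlt (l ∘ s) then 1 else 0

/-- the tuple `(± e_0, ..., ± e_{k-1})`. -/
def cp (e : ℕ → V) {k : ℕ} (ε : Fin k → Bool) (i : Fin k) : V := if ε i then e i else -e i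

end BU

/-! ### Gaussian projections -/

section Crofton

variable {E H ι : Type*} [NormedAddCommGroup E] [InnerProductSpace ℝ E] [NormedAddCommGroup H]
  [InnerProductSpace ℝ H] [Fintype ι]

/-- The linear map `H → E` which sends the basis vector `b j` to `p j`. -/
noncomputable def act (b : OrthonormalBasis ι ℝ H) (p : PiLp 2 (fun _ : ι => E)) : H →L[ℝ] E :=
  ∑ j, (innerSL ℝ (b j)).smulRight (p j)

/-- Gaussian weight. -/
noncomputable def gw (p : PiLp 2 (fun _ : ι => E)) : ℝ≥0∞ :=
  ENNReal.ofReal (Real.exp (-(‖p‖ ^ 2 / 2)))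

open Classical in
/-- `|det F'|` cut off outside the unit ball. -/
noncomputable def ker (b : OrthonormalBasis ι ℝ H) (p : PiLp 2 (fun _ : ι => E))
    (D : E →L[ℝ] H) (y : E) : ℝ≥0∞ :=
  if ‖act b p (D y)‖ < 1 then ENNReal.ofReal |(act b p ∘L D).det| else 0

/-- Gaussian average of `ker`. -/
noncomputable def Psi [FiniteDimensional ℝ E] [MeasurableSpace E] [BorelSpace E]
    (b : OrthonormalBasis ι ℝ H) (D : E →L[ℝ] H) (y : E) : ℝ≥0∞ :=
  ∫⁻ p : PiLp 2 (fun _ : ι => E), gw p * ker b p D y

/-- the Jacobian `√det (Dᵗ D)`. -/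
noncomputable def Jac [FiniteDimensional ℝ E] [FiniteDimensional ℝ H] (D : E →L[ℝ] H) : ℝ :=
  √((D.adjoint ∘L D).det)

/-- odd, positively homogeneous maps which are `C¹` off `0` and multiply norms by `R`. -/
structure OddMap (g : E → H) (R : ℝ) : Prop where
  smooth : ContDiffOn ℝ 1 g {0}ᶜ
  homog : ∀ (y : E) (t : ℝ), 0 < t → g (t • y) = t • g y
  odd : ∀ y, g (-y) = -g y
  norm : ∀ y, ‖g y‖ = R * ‖y‖

end Crofton

/-! ### Fields on the sphere -/

section Field

variable {E : Type*} [NormedAddCommGroup E] [InnerProductSpace ℝ E]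

open Classical in
/-- copy of `Helper20.VF.radExt`. -/
noncomputable def radExt (W : sphere (0 : E) 1 → E) (y : E) : E :=
  if hy : y = 0 then 0 else W ⟨‖y‖⁻¹ • y, by
    rw [mem_sphere_zero_iff_norm, norm_smul, norm_inv, norm_norm,
      inv_mul_cancel₀ (norm_ne_zero_iff.2 hy)]⟩

/-- copy of `Helper20.VF.covDeriv`. -/
noncomputable def covDeriv (W : sphere (0 : E) 1 → E) (x : sphere (0 : E) 1) : E →L[ℝ] E :=
  fderiv ℝ (radExt W) x - ((innerSL ℝ (x : E)) ∘L fderiv ℝ (radExt W) x).smulRight (x : E)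

/-- The positively homogeneous extension of degree one. -/
noncomputable def hext (W : sphere (0 : E) 1 → E) (y : E) : E := ‖y‖ • radExt W y

/-- `y ↦ (y, hext W y)`. -/
noncomputable def gmap (W : sphere (0 : E) 1 → E) (y : E) : WithLp 2 (E × E) :=
  WithLp.toLp 2 (y, hext W y)

end Field

end Pool.Agent.Helper19.HO
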