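import Mathlib.Analysis.Normed.Module.Convex
import Mathlib.Topology.UniformSpace.HeineCantor
import Mathlib.Tactic
import Pool.Agent.Helper19.HO.Defs
import Pool.Agent.Helper61.HO.P1
import Pool.Agent.Helper30.HO.P2
import Pool.Agent.Helper54.HO.P3
import Pool.Agent.Helper62.HO.P4

/-!
# HO-5: the Borsuk-Ulam theorem
-/

open MeasureTheory Set Metric Filter Module
open scoped NNReal Topology RealInnerProductSpace ENNReal Real ContDiff Manifold

namespace Pool.Agent.Helper19.HO

namespace P5

/-! ### labels -/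

/-- index of an entry of maximal value -/
noncomputable def amax {n : ℕ} [Nonempty (Fin n)] (a : Fin n → ℝ) : Fin n :=
  Classical.choose (Finite.exists_max a)

theorem le_amax {n : ℕ} [Nonempty (Fin n)] (a : Fin n → ℝ) (i : Fin n) : a i ≤ a (amax a) :=
  Classical.choose_spec (Finite.exists_max a) i

/-- label of a vector -/
noncomputable def lab {n : ℕ} [Nonempty (Fin n)] (z : Fin n → ℝ) : ℤ :=
  if 0 < z (amax fun i => |z i|) then ((amax fun i => |z i|) : ℕ) + 1
  else -(((amax fun i => |z i|) : ℕ) + 1 : ℤ)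

theorem abs_lab {n : ℕ} [Nonempty (Fin n)] (z : Fin n → ℝ) :
    |lab z| = ((amax fun i => |z i|) : ℕ) + 1 := by
  unfold lab
  split
  · exact abs_of_pos (by positivity)
  · rw [abs_neg]; exact abs_of_pos (by positivity)

theorem lab_ne_zero {n : ℕ} [Nonempty (Fin n)] (z : Fin n → ℝ) : lab z ≠ 0 := by
  intro h
  have := abs_lab z
  rw [h, abs_zero] at this
  have h2 : (0 : ℤ) < ((amax fun i => |z i|) : ℕ) + 1 := by positivity
  omega

theorem apply_amax_ne {n : ℕ} [Nonempty (Fin n)] {z : Fin n → ℝ} (hz : z ≠ 0) :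
    z (amax fun i => |z i|) ≠ 0 := by
  intro h
  apply hz
  funext i
  have := le_amax (fun i => |z i|) i
  simp only [h, abs_zero] at this
  exact abs_eq_zero.1 (le_antisymm this (abs_nonneg _))

theorem lab_neg {n : ℕ} [Nonempty (Fin n)] {z : Fin n → ℝ} (hz : z ≠ 0) : lab (-z) = -lab z := by
  have h0 := apply_amax_ne hz
  unfold lab
  simp only [Pi.neg_apply, abs_neg, Left.neg_pos_iff]
  rcases lt_or_gt_of_ne h0 with h | h
  · rw [if_pos h, if_neg (not_lt.2 h.le), neg_neg]
  · rw [if_neg (not_lt.2 h.le), if_pos h]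

theorem dist_of_lab {n : ℕ} [Nonempty (Fin n)] {z w : Fin n → ℝ} (hz : z ≠ 0)
    (h : lab z = -lab w) : ‖z‖ ≤ dist z w := by
  have habs : |lab z| = |lab w| := by rw [h, abs_neg]
  rw [abs_lab, abs_lab] at habs
  have hi : (amax fun i => |z i|) = amax fun i => |w i| := by
    apply Fin.ext
    have : (((amax fun i => |z i|) : ℕ) : ℤ) = ((amax fun i => |w i|) : ℕ) := by linarith
    exact_mod_cast this
  have h0 := apply_amax_ne hz
  set i := amax fun i => |w i| with hidef
  rw [hi] at h0
  have hn : ‖z‖ ≤ |z i| := by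
    refine (pi_norm_le_iff_of_nonneg (abs_nonneg _)).2 fun j => ?_
    have := le_amax (fun i => |z i|) j
    rw [hi] at this
    simpa using this
  have hd : |z i - w i| ≤ dist z w := by
    have := dist_le_pi_dist z w i
    rwa [Real.dist_eq] at this
  refine hn.trans (le_trans ?_ hd)
  unfold lab at h
  rw [hi, ← hidef] at h
  rcases lt_or_gt_of_ne h0 with hs | hs
  · rw [if_neg (not_lt.2 hs.le)] at h
    by_cases hw : 0 < w i
    · rw [abs_of_neg hs, abs_of_neg (by linarith)]; linarith
    · rw [if_neg hw] at h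
      exfalso
      have : (0 : ℤ) < (i : ℕ) + 1 := by positivity
      omega
  · rw [if_pos hs] at h
    by_cases hw : 0 < w i
    · rw [if_pos hw] at h
      exfalso
      have : (0 : ℤ) < (i : ℕ) + 1 := by positivity
      omega
    · push Not at hw
      rw [abs_of_pos hs, abs_of_pos (by linarith)]; linarith

/-! ### the boundary of the cross-polytope -/

/-- sign -/
def sg {k : ℕ} (ε : Fin k → Bool) (i : ℕ) : ℝ :=
  if h : i < k then (if ε ⟨i, h⟩ then 1 else -1) else 1

theorem sg_cases {k : ℕ} (ε : Fin k → Bool) (i : ℕ) : sg ε i = 1 ∨ sg ε i = -1 := by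
  unfold sg
  split
  · split
    · exact Or.inl rfl
    · exact Or.inr rfl
  · exact Or.inl rfl

/-- a closed facet -/
def facet (n : ℕ) {k : ℕ} (ε : Fin k → Bool) : Set (Fin (n + 1) → ℝ) :=
  {x | (∀ i : Fin (n + 1), 0 ≤ sg ε i * x i) ∧ ∑ i : Fin (n + 1), sg ε i * x i = 1}

theorem convex_facet (n : ℕ) {k : ℕ} (ε : Fin k → Bool) : Convex ℝ (facet n ε) := by
  intro x hx y hy a b ha hb hab
  refine ⟨fun i => ?_, ?_⟩
  · have h1 := hx.1 i
    have h2 := hy.1 i
    simp only [Pi.add_apply, Pi.smul_apply, smul_eq_mul]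
    have : sg ε i * (a * x i + b * y i) = a * (sg ε i * x i) + b * (sg ε i * y i) := by ring
    rw [this]
    positivity
  · simp only [Pi.add_apply, Pi.smul_apply, smul_eq_mul]
    have : ∀ i : Fin (n + 1), sg ε i * (a * x i + b * y i) =
        a * (sg ε i * x i) + b * (sg ε i * y i) := fun i => by ring
    simp only [this, Finset.sum_add_distrib, ← Finset.mul_sum, hx.2, hy.2]
    linarith

/-- the boundary of the cross-polytope -/
def cross (n : ℕ) : Set (Fin (n + 1) → ℝ) := {x | ∑ i, |x i| = 1}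

theorem facet_subset (n : ℕ) {k : ℕ} (ε : Fin k → Bool) : facet n ε ⊆ cross n := by
  intro x hx
  have : ∀ i : Fin (n + 1), |x i| = sg ε i * x i := by
    intro i
    have h := hx.1 i
    rcases sg_cases ε i with h1 | h1
    · rw [h1, one_mul] at h ⊢; exact abs_of_nonneg h
    · rw [h1] at h ⊢
      rw [neg_one_mul] at h ⊢
      rw [← abs_neg]; exact abs_of_nonneg h
  show ∑ i, |x i| = 1
  simp only [this]
  exact hx.2

theorem cross_abs_le {n : ℕ} {x : Fin (n + 1) → ℝ} (hx : x ∈ cross n) (i : Fin (n + 1)) :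
    |x i| ≤ 1 := by
  have h : ∑ i, |x i| = 1 := hx
  rw [← h]
  exact Finset.single_le_sum (f := fun i => |x i|) (fun _ _ => abs_nonneg _) (Finset.mem_univ i)

theorem cross_dist {n : ℕ} {x y : Fin (n + 1) → ℝ} (hx : x ∈ cross n) (hy : y ∈ cross n) :
    dist x y ≤ 2 := by
  refine (dist_pi_le_iff (by norm_num)).2 fun i => ?_
  rw [Real.dist_eq]
  have h1 := cross_abs_le hx i
  have h2 := cross_abs_le hy i
  calc |x i - y i| ≤ |x i| + |y i| := abs_sub _ _
    _ ≤ 2 := by linarith

theorem cross_ne_zero {n : ℕ} {x : Fin (n + 1) → ℝ} (hx : x ∈ cross n) : x ≠ 0 := by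
  rintro rfl
  have h : ∑ i : Fin (n + 1), |(0 : Fin (n + 1) → ℝ) i| = 1 := hx
  simp at h

theorem isCompact_cross (n : ℕ) : IsCompact (cross n) := by
  have hc : Continuous fun x : Fin (n + 1) → ℝ => ∑ i, |x i| := by fun_prop
  refine Metric.isCompact_of_isClosed_isBounded (isClosed_eq hc continuous_const) ?_
  refine (Metric.isBounded_closedBall (x := (0 : Fin (n + 1) → ℝ)) (r := 1)).subset ?_
  intro x hx
  rw [mem_closedBall, dist_zero_right]
  refine (pi_norm_le_iff_of_nonneg zero_le_one).2 fun i => ?_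
  rw [Real.norm_eq_abs]
  exact cross_abs_le hx i

/-- basis vectors -/
noncomputable def eb (n : ℕ) (i : ℕ) : Fin (n + 1) → ℝ :=
  if h : i < n + 1 then Pi.single ⟨i, h⟩ 1 else 0

theorem cp_mem_facet {n k : ℕ} (hk : k ≤ n + 1) (ε : Fin k → Bool) (i : Fin k) :
    cp (eb n) ε i ∈ facet n ε := by
  have hi : (i : ℕ) < n + 1 := lt_of_lt_of_le i.2 hk
  have hsg : sg ε i = if ε i then 1 else -1 := by
    unfold sg
    rw [dif_pos i.2]
  have hv : ∀ j : Fin (n + 1), sg ε j * cp (eb n) ε i j = if j = ⟨i, hi⟩ then 1 else 0 := by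
    intro j
    unfold cp eb
    rw [dif_pos hi]
    by_cases hj : j = ⟨i, hi⟩
    · subst hj
      rw [if_pos rfl]
      show sg ε i * _ = _
      rw [hsg]
      cases ε i <;> simp
    · rw [if_neg hj]
      cases ε i <;> simp [Pi.single_eq_of_ne hj]
  refine ⟨fun j => ?_, ?_⟩
  · rw [hv]; split <;> norm_num
  · simp only [hv]
    simp

theorem mesh_le {n k : ℕ} (hk : k ≤ n) (N : ℕ) {D : ℝ} (hD : 0 ≤ D) :
    ((k : ℝ) / (k + 1)) ^ N * D ≤ ((n : ℝ) / (n + 1)) ^ N * D := by
  refine mul_le_mul_of_nonneg_right (pow_le_pow_left₀ (by positivity) ?_ N) hD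
  have h : (k : ℝ) ≤ n := by exact_mod_cast hk
  rw [div_le_div_iff₀ (by positivity) (by positivity)]
  nlinarith

/-- Labels with at most `n` absolute values are never alternating of length `n + 1`. -/
theorem altP_zero {n : ℕ} [Nonempty (Fin n)] (w : Fin (n + 1) → (Fin n → ℝ)) :
    altP (fun i => lab (w i)) = 0 := by
  classical
  unfold altP
  refine Finset.sum_eq_zero fun s _ => ?_
  rw [if_neg]
  intro h
  have hinj : Function.Injective fun i : Fin (n + 1) => amax fun j => |w (s i) j| := by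
    intro i i' hii
    refine h.1.injective ?_
    simp only [Function.comp_apply, abs_lab]
    simp only at hii
    rw [hii]
  have := Fintype.card_le_of_injective _ hinj
  simp at this

theorem altP_one (l : Fin 1 → ℤ) : altP l = if 0 < l 0 then 1 else 0 := by
  classical
  unfold altP
  have : (Finset.univ : Finset (Equiv.Perm (Fin 1))) = {1} := by
    apply Finset.eq_singleton_iff_unique_mem.2
    exact ⟨Finset.mem_univ _, fun x _ => Subsingleton.elim _ _⟩
  rw [this, Finset.sum_singleton]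
  refine if_congr ?_ rfl rfl
  unfold IsAlt
  constructor
  · intro h
    simpa using h.2 0
  · intro h
    refine ⟨?_, ?_⟩
    · intro i j hij
      exact absurd hij (by rw [Subsingleton.elim i j]; exact lt_irrefl _)
    · intro i
      rw [Subsingleton.elim i 0]
      simpa using h

theorem sd_zero_dim {V : Type*} [AddCommGroup V] [Module ℝ V] (a : (Fin 1 → V) → ZMod 2) :
    sd a = a := by
  funext v
  unfold sd
  have : (Finset.univ : Finset (Equiv.Perm (Fin 1))) = {1} := by
    apply Finset.eq_singleton_iff_unique_mem.2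
    exact ⟨Finset.mem_univ _, fun x _ => Subsingleton.elim _ _⟩
  have h1 : (Finset.univ : Finset (Equiv.Perm (Fin (0 + 1)))) = {1} := this
  rw [h1, Finset.sum_singleton]
  congr 1
  funext j
  have hj : j = 0 := Subsingleton.elim (α := Fin 1) _ _
  subst hj
  unfold bary
  have : Finset.Iic (0 : Fin (0 + 1)) = {0} := by decide
  rw [this]
  simp

theorem sd_iterate_zero_dim {V : Type*} [AddCommGroup V] [Module ℝ V]
    (a : (Fin 1 → V) → ZMod 2) (N : ℕ) : sd^[N] a = a := by
  induction N with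
  | zero => rfl
  | succ N ih => rw [Function.iterate_succ_apply', ih, sd_zero_dim]

theorem sd_iterate_zero {V : Type*} [AddCommGroup V] [Module ℝ V] {k : ℕ} (N : ℕ) :
    sd^[N] (fun _ : Fin (k + 1) → V => (0 : ZMod 2)) = fun _ => 0 := by
  induction N with
  | zero => rfl
  | succ N ih =>
    rw [Function.iterate_succ_apply', ih]
    funext v
    simp [sd]

end P5

open P5 in
theorem borsuk_ulam {n : ℕ} (f : (Fin (n + 1) → ℝ) → (Fin n → ℝ)) (hf : ContinuousOn f {0}ᶜ)
    (hodd : ∀ y, y ≠ 0 → f (-y) = -f y) : ∃ y, y ≠ 0 ∧ f y = 0 := by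
  classical
  rcases Nat.eq_zero_or_pos n with hn | hn
  · subst hn
    exact ⟨fun _ => 1, fun h => by simpa using congrFun h 0, Subsingleton.elim _ _⟩
  have : Nonempty (Fin n) := ⟨⟨0, hn⟩⟩
  by_contra hcon
  push Not at hcon
  -- uniform continuity on the cross-polytope
  have hsub : cross n ⊆ ({0}ᶜ : Set (Fin (n + 1) → ℝ)) := fun x hx => cross_ne_zero hx
  have hcont : ContinuousOn f (cross n) := hf.mono hsub
  have hcpt := isCompact_cross n
  have hne : (cross n).Nonempty := ⟨_, facet_subset n _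
    (cp_mem_facet (n := n) (k := 1) (by omega) (fun _ => true) 0)⟩
  obtain ⟨η, hη, hηle⟩ : ∃ η > 0, ∀ x ∈ cross n, η ≤ ‖f x‖ := by
    obtain ⟨x0, hx0, hmin⟩ := hcpt.exists_isMinOn hne hcont.norm
    exact ⟨‖f x0‖, norm_pos_iff.2 (hcon x0 (hsub hx0)), fun x hx => hmin hx⟩
  have huc := hcpt.uniformContinuousOn_of_continuous hcont
  rw [Metric.uniformContinuousOn_iff] at huc
  obtain ⟨δ, hδ, huc⟩ := huc η hη
  have hlab : ∀ x ∈ cross n, ∀ y ∈ cross n, dist x y < δ → lab (f x) ≠ -lab (f y) := by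
    intro x hx y hy hxy h
    have h1 := dist_of_lab (hcon x (hsub hx)) h
    have h2 := huc x hx y hy hxy
    have h3 := hηle x hx
    linarith
  -- choice of N
  obtain ⟨N, hN⟩ : ∃ N : ℕ, ((n : ℝ) / (n + 1)) ^ N * 2 < δ := by
    have h1 : (n : ℝ) / (n + 1) < 1 := by
      rw [div_lt_one (by positivity)]; linarith
    obtain ⟨N, hN⟩ := exists_pow_lt_of_lt_one (by positivity : 0 < δ / 2) h1
    exact ⟨N, by linarith⟩
  set A : ∀ k : ℕ, (Fin (k + 1) → (Fin (n + 1) → ℝ)) → ZMod 2 := fun k w =>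
    altP (fun i => lab (f (w i))) with hA
  have step : ∀ k : ℕ, k + 1 ≤ n →
      ∑ ε : Fin (k + 2) → Bool, (sd^[N] (A (k + 1))) (cp (eb n) ε) =
        ∑ ε : Fin (k + 1) → Bool, (sd^[N] (A k)) (cp (eb n) ε) := by
    intro k hk
    refine sum_cp_succ (eb n) _ _ fun ε => ?_
    rw [← sd_iterate_cob]
    have e1 : (sd^[N] (A (k + 1))) (cp (eb n) ε) + (sd^[N] (A (k + 1))) (-cp (eb n) ε) =
        (sd^[N] (fun v => A (k + 1) v + A (k + 1) (-v))) (cp (eb n) ε) := by
      rw [sd_iterate_add (A (k + 1)) (fun v => A (k + 1) (-v)),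
        sd_iterate_neg (A (k + 1))]
    rw [e1]
    refine sd_iterate_congr (k := k + 1) _ _ (convex_facet n ε) N (D := 2) ?_
      (fun i => cp_mem_facet (by omega) ε i) ?_
    · intro w hw hd
      have hw' : ∀ i, w i ∈ cross n := fun i => facet_subset n ε (hw i)
      have hd' : ∀ i j, dist (w i) (w j) < δ := fun i j =>
        lt_of_le_of_lt ((hd i j).trans (mesh_le hk N (by norm_num))) hN
      have hp := altP_parity (fun i => lab (f (w i))) (fun i j =>
        hlab _ (hw' i) _ (hw' j) (hd' i j))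
      have e2 : (-(fun i => lab (f (w i))) : Fin (k + 2) → ℤ) = fun i => lab (f ((-w) i)) := by
        funext i
        simp only [Pi.neg_apply]
        rw [hodd _ (hsub (hw' i)), lab_neg (hcon _ (hsub (hw' i)))]
      rw [e2] at hp
      exact hp
    · intro i j
      exact cross_dist (facet_subset n ε (cp_mem_facet (by omega) ε i))
        (facet_subset n ε (cp_mem_facet (by omega) ε j))
  have chain : ∀ k : ℕ, k ≤ n → ∑ ε : Fin (k + 1) → Bool, (sd^[N] (A k)) (cp (eb n) ε) =
      ∑ ε : Fin (0 + 1) → Bool, (sd^[N] (A 0)) (cp (eb n) ε) := by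
    intro k
    induction k with
    | zero => intro _; rfl
    | succ k ih => intro hk; rw [step k hk, ih (by omega)]
  have htop : ∑ ε : Fin (n + 1) → Bool, (sd^[N] (A n)) (cp (eb n) ε) = 0 := by
    have : A n = fun _ => 0 := by
      funext w
      exact altP_zero (fun i => f (w i))
    rw [this, sd_iterate_zero]
    simp
  have hbot : ∑ ε : Fin (0 + 1) → Bool, (sd^[N] (A 0)) (cp (eb n) ε) = 1 := by
    have hz := sd_iterate_zero_dim (A 0) N
    have hz' : sd^[N] (A 0) = A 0 := hz
    rw [hz']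
    have he : eb n 0 ≠ 0 := by
      intro h
      have := congrFun h ⟨0, by omega⟩
      unfold eb at this
      rw [dif_pos (by omega)] at this
      simp at this
    have hs : ∑ ε : Fin (0 + 1) → Bool, A 0 (cp (eb n) ε) =
        A 0 (cp (eb n) (fun _ => true)) + A 0 (cp (eb n) (fun _ => false)) := by
      show ∑ ε : Fin 1 → Bool, A 0 (cp (eb n) ε) = _
      rw [← (Equiv.funUnique (Fin 1) Bool).symm.sum_comp, Fintype.sum_bool]
      rfl
    rw [hs]
    have h1 : A 0 (cp (eb n) (fun _ => true)) = if 0 < lab (f (eb n 0)) then 1 else 0 := by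
      simp only [hA]
      rw [altP_one]
      rfl
    have h2 : A 0 (cp (eb n) (fun _ => false)) = if 0 < lab (f (-eb n 0)) then 1 else 0 := by
      simp only [hA]
      rw [altP_one]
      rfl
    rw [h1, h2, hodd _ he, lab_neg (hcon _ he)]
    have h3 := lab_ne_zero (f (eb n 0))
    rcases lt_or_gt_of_ne h3 with h | h
    · rw [if_neg (not_lt.2 h.le), if_pos (by omega)]; rfl
    · rw [if_pos h, if_neg (by omega)]; rfl
  have := chain n le_rfl
  rw [htop, hbot] at this
  exact zero_ne_one this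

end Pool.Agent.Helper19.HO
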