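import Pool.Agent.Helper19.HO.Defs
import Mathlib.Analysis.Calculus.InverseFunctionTheorem.FDeriv
import Mathlib.Analysis.Calculus.ImplicitFunction.ProdDomain

open MeasureTheory Set Metric Filter Module
open scoped NNReal Topology RealInnerProductSpace ENNReal Real ContDiff Manifold

namespace Pool.Agent.Helper19.HO

section

variable {E H ι : Type*} [NormedAddCommGroup E] [InnerProductSpace ℝ E] [NormedAddCommGroup H]
  [InnerProductSpace ℝ H] [Fintype ι] [FiniteDimensional ℝ E] [FiniteDimensional ℝ H]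

omit [FiniteDimensional ℝ E] [FiniteDimensional ℝ H] in
lemma act_apply_h19 (b : OrthonormalBasis ι ℝ H) (p : PiLp 2 (fun _ : ι => E)) (h : H) :
    act b p h = ∑ j, ⟪b j, h⟫ • p j := by
  simp [act]

theorem eventually_covers (b : OrthonormalBasis ι ℝ H) {g : E → H} {x : E}
    (hg : ContDiffAt ℝ 1 g x) (p₀ : PiLp 2 (fun _ : ι => E))
    (hdet : (act b p₀ ∘L fderiv ℝ g x).det ≠ 0) {U : Set E} (hU : U ∈ 𝓝 x) :
    ∀ᶠ q : PiLp 2 (fun _ : ι => E) × E in 𝓝 (p₀, act b p₀ (g x)),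
      ∃ y ∈ U, act b q.1 (g y) = q.2 := by
  classical
  have hgs : HasStrictFDerivAt g (fderiv ℝ g x) x := hg.hasStrictFDerivAt one_ne_zero
  set G : PiLp 2 (fun _ : ι => E) × E → PiLp 2 (fun _ : ι => E) × E := fun q => (q.1, act b q.1 (g q.2)) with hG
  -- derivative
  have hterm : ∀ j : ι, HasStrictFDerivAt (fun q : PiLp 2 (fun _ : ι => E) × E => ⟪b j, g q.2⟫ • q.1 j)
      (⟪b j, g x⟫ • ((PiLp.proj 2 (fun _ : ι => E) j : PiLp 2 (fun _ : ι => E) →L[ℝ] E) ∘L ContinuousLinearMap.fst ℝ (PiLp 2 (fun _ : ι => E)) E)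
        + ((innerSL ℝ (b j)) ∘L (fderiv ℝ g x) ∘L ContinuousLinearMap.snd ℝ (PiLp 2 (fun _ : ι => E)) E).smulRight (p₀ j))
      (p₀, x) := by
    intro j
    have h1 : HasStrictFDerivAt (fun q : PiLp 2 (fun _ : ι => E) × E => ⟪b j, g q.2⟫)
        ((innerSL ℝ (b j)) ∘L (fderiv ℝ g x) ∘L ContinuousLinearMap.snd ℝ (PiLp 2 (fun _ : ι => E)) E) (p₀, x) := by
      have h2 : HasStrictFDerivAt (fun q : PiLp 2 (fun _ : ι => E) × E => g q.2)
          ((fderiv ℝ g x) ∘L ContinuousLinearMap.snd ℝ (PiLp 2 (fun _ : ι => E)) E) (p₀, x) :=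
        HasStrictFDerivAt.comp (p₀, x) (f := fun q : PiLp 2 (fun _ : ι => E) × E => q.2) hgs hasStrictFDerivAt_snd
      exact (innerSL ℝ (b j)).hasStrictFDerivAt.comp (p₀, x) h2
    have h3 : HasStrictFDerivAt (fun q : PiLp 2 (fun _ : ι => E) × E => q.1 j)
        ((PiLp.proj 2 (fun _ : ι => E) j : PiLp 2 (fun _ : ι => E) →L[ℝ] E) ∘L ContinuousLinearMap.fst ℝ (PiLp 2 (fun _ : ι => E)) E) (p₀, x) :=
      ((PiLp.proj 2 (fun _ : ι => E) j : PiLp 2 (fun _ : ι => E) →L[ℝ] E) ∘L ContinuousLinearMap.fst ℝ (PiLp 2 (fun _ : ι => E)) E).hasStrictFDerivAt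
    exact h1.smul h3
  set A' : PiLp 2 (fun _ : ι => E) × E →L[ℝ] E := ∑ j, (⟪b j, g x⟫ • ((PiLp.proj 2 (fun _ : ι => E) j : PiLp 2 (fun _ : ι => E) →L[ℝ] E) ∘L
      ContinuousLinearMap.fst ℝ (PiLp 2 (fun _ : ι => E)) E)
        + ((innerSL ℝ (b j)) ∘L (fderiv ℝ g x) ∘L ContinuousLinearMap.snd ℝ (PiLp 2 (fun _ : ι => E)) E).smulRight (p₀ j))
    with hA'
  have hA : HasStrictFDerivAt (fun q : PiLp 2 (fun _ : ι => E) × E => act b q.1 (g q.2)) A' (p₀, x) := by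
    have h := HasStrictFDerivAt.fun_sum (u := Finset.univ) (fun j _ => hterm j)
    simp_rw [act_apply_h19]
    exact h
  have hGd : HasStrictFDerivAt G ((ContinuousLinearMap.fst ℝ (PiLp 2 (fun _ : ι => E)) E).prod A') (p₀, x) :=
    hasStrictFDerivAt_fst.prodMk hA
  have hA'v : ∀ v : E, A' (0, v) = (act b p₀ ∘L fderiv ℝ g x) v := by
    intro v
    rw [ContinuousLinearMap.comp_apply, act_apply_h19]
    simp [hA']
  have hsurj : ((ContinuousLinearMap.fst ℝ (PiLp 2 (fun _ : ι => E)) E).prod A').range = ⊤ := by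
    rw [LinearMap.range_eq_top]
    rintro ⟨q, w⟩
    obtain ⟨v, hv⟩ : ∃ v, (act b p₀ ∘L fderiv ℝ g x) v = w - A' (q, 0) := by
      have hu : IsUnit ((act b p₀ ∘L fderiv ℝ g x : E →L[ℝ] E) : E →ₗ[ℝ] E) :=
        (LinearMap.isUnit_iff_isUnit_det _).2 (isUnit_iff_ne_zero.2 hdet)
      have h2 := ((Module.End.isUnit_iff _).1 hu).2
      exact h2 _
    refine ⟨(q, v), ?_⟩
    have h3 : ((q, v) : PiLp 2 (fun _ : ι => E) × E) = (q, 0) + (0, v) := by simp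
    have h4 : A' (q, v) = w := by
      rw [h3, map_add, hA'v, hv]
      abel
    simp [h4]
  have hmap := hGd.map_nhds_eq_of_surj hsurj
  have hVU : {q : PiLp 2 (fun _ : ι => E) × E | q.2 ∈ U} ∈ 𝓝 (p₀, x) := continuousAt_snd.preimage_mem_nhds hU
  have h5 : G '' {q : PiLp 2 (fun _ : ι => E) × E | q.2 ∈ U} ∈ 𝓝 (G (p₀, x)) := by
    rw [← hmap]
    exact image_mem_map hVU
  filter_upwards [h5] with q hq
  obtain ⟨⟨p, y⟩, hy, rfl⟩ := hq
  exact ⟨y, hy, rfl⟩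

end

end Pool.Agent.Helper19.HO
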