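import Pool.Agent.Helper19.HO.Defs

open MeasureTheory Set Metric Filter Module
open scoped NNReal Topology RealInnerProductSpace ENNReal Real ContDiff Manifold

namespace Pool.Agent.Helper19.HO

section

variable {E : Type*} [NormedAddCommGroup E] [InnerProductSpace ℝ E] [FiniteDimensional ℝ E]
  [MeasurableSpace E] [BorelSpace E]

theorem ball_add_le [Nontrivial E] {F : E → E} (hF : ContDiffOn ℝ 1 F {0}ᶜ)
    (hs : ∀ z, z ≠ 0 → ∃ y, y ≠ 0 ∧ F y = z) {U₁ U₂ O : Set E} (hU₁ : IsOpen U₁) (hO : IsOpen O)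
    (hOb : O ⊆ ball 0 1) (h01 : (0 : E) ∉ U₁) (h02 : (0 : E) ∉ U₂) (hd : Disjoint U₁ U₂)
    (h1 : O ⊆ F '' U₁) (h2 : O ⊆ F '' U₂) :
    volume (ball (0 : E) 1) + volume O
      ≤ ∫⁻ y, {y : E | ‖F y‖ < 1}.indicator (fun y => ENNReal.ofReal |(fderiv ℝ F y).det|) y := by
  have hFc : ContinuousOn F {0}ᶜ := hF.continuousOn
  have h0o : IsOpen ({0}ᶜ : Set E) := isOpen_compl_singleton
  set s₁ : Set E := U₁ ∩ ({0}ᶜ ∩ F ⁻¹' O) with hs₁
  have hs₁o : IsOpen s₁ := hU₁.inter (hFc.isOpen_inter_preimage h0o hO)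
  set B : Set E := {0}ᶜ ∩ F ⁻¹' ball 0 1 with hB
  have hBo : IsOpen B := hFc.isOpen_inter_preimage h0o isOpen_ball
  set s₂ : Set E := B \ s₁ with hs₂
  have hs₁m : MeasurableSet s₁ := hs₁o.measurableSet
  have hs₂m : MeasurableSet s₂ := hBo.measurableSet.diff hs₁m
  have hder : ∀ s : Set E, s ⊆ {0}ᶜ → ∀ x ∈ s, HasFDerivWithinAt F (fderiv ℝ F x) s x := by
    intro s hs' x hx
    exact ((hF.contDiffAt (h0o.mem_nhds (hs' hx))).differentiableAt
      one_ne_zero).hasFDerivAt.hasFDerivWithinAt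
  have hs₁0 : s₁ ⊆ {0}ᶜ := fun x hx => hx.2.1
  have hs₂0 : s₂ ⊆ {0}ᶜ := fun x hx => hx.1.1
  have e1 := addHaar_image_le_lintegral_abs_det_fderiv (volume : Measure E) hs₁m (hder s₁ hs₁0)
  have e2 := addHaar_image_le_lintegral_abs_det_fderiv (volume : Measure E) hs₂m (hder s₂ hs₂0)
  have hO₁ : O ⊆ F '' s₁ := by
    intro z hz
    obtain ⟨y, hy, rfl⟩ := h1 hz
    exact ⟨y, ⟨hy, fun h => h01 (h ▸ hy), hz⟩, rfl⟩
  have hb₂ : ball (0 : E) 1 \ {0} ⊆ F '' s₂ := by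
    rintro z ⟨hz, hz0⟩
    by_cases hzO : z ∈ O
    · obtain ⟨y, hy, rfl⟩ := h2 hzO
      refine ⟨y, ⟨⟨fun h => h02 (h ▸ hy), hz⟩, fun h => ?_⟩, rfl⟩
      exact disjoint_left.1 hd h.1 hy
    · obtain ⟨y, hy, rfl⟩ := hs z hz0
      exact ⟨y, ⟨⟨hy, hz⟩, fun h => hzO h.2.2⟩, rfl⟩
  have hball : volume (ball (0 : E) 1) ≤ volume (F '' s₂) := by
    rw [← measure_diff_null (s := ball (0 : E) 1) (t := {0}) (measure_singleton 0)]
    exact measure_mono hb₂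
  have hdis : Disjoint s₁ s₂ := disjoint_left.2 fun x hx hx' => hx'.2 hx
  have hsub : s₁ ∪ s₂ ⊆ {y : E | ‖F y‖ < 1} := by
    rintro x (hx | hx)
    · have := hOb hx.2.2
      rwa [mem_ball_zero_iff] at this
    · have := hx.1.2
      rwa [mem_preimage, mem_ball_zero_iff] at this
  calc volume (ball (0 : E) 1) + volume O ≤ volume (F '' s₂) + volume (F '' s₁) :=
        add_le_add hball (measure_mono hO₁)
    _ ≤ (∫⁻ x in s₂, ENNReal.ofReal |(fderiv ℝ F x).det|)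
        + ∫⁻ x in s₁, ENNReal.ofReal |(fderiv ℝ F x).det| := add_le_add e2 e1
    _ = ∫⁻ x in s₁ ∪ s₂, ENNReal.ofReal |(fderiv ℝ F x).det| := by
        rw [lintegral_union hs₂m hdis, add_comm]
    _ = ∫⁻ y, (s₁ ∪ s₂).indicator (fun y => ENNReal.ofReal |(fderiv ℝ F y).det|) y := by
        rw [lintegral_indicator (hs₁m.union hs₂m)]
    _ ≤ _ := lintegral_mono fun y => indicator_le_indicator_of_subset hsub (fun _ => zero_le) y

end

end Pool.Agent.Helper19.HO
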