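import Pool.Agent.Helper19.HO.BU
import Pool.Agent.Helper2.HO.P6
import Pool.Agent.Helper26.HO.P7
import Pool.Agent.Helper19.HO.P8
import Pool.Agent.Helper67.HO.P9
import Pool.Agent.Helper78.HO.P12
import Pool.Agent.Helper35.HO.P13
import Pool.Agent.Helper88.HO.P14
import Pool.Agent.Helper32.HO.P15
import Pool.Agent.Helper19.HO.P16

/-!
# Project HO: the Crofton inequality for odd maps
-/

open MeasureTheory Set Metric Filter Module
open scoped NNReal Topology RealInnerProductSpace ENNReal Real ContDiff Manifold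

namespace Pool.Agent.Helper19.HO

section

theorem surj_of_odd {E : Type*} [NormedAddCommGroup E] [InnerProductSpace ℝ E]
    [FiniteDimensional ℝ E] {F : E → E} (hF : ContinuousOn F {0}ᶜ)
    (hom : ∀ (y : E) (t : ℝ), 0 < t → F (t • y) = t • F y) (hodd : ∀ y, F (-y) = -F y)
    (h0 : ∀ y, y ≠ 0 → F y ≠ 0) : ∀ z, z ≠ 0 → ∃ y, y ≠ 0 ∧ F y = z :=
  surj_of_odd_of (fun _ f => borsuk_ulam f) hF hom hodd h0

variable {E H ι : Type*} [NormedAddCommGroup E] [InnerProductSpace ℝ E] [NormedAddCommGroup H]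
  [InnerProductSpace ℝ H] [Fintype ι] [FiniteDimensional ℝ E] [FiniteDimensional ℝ H]

omit [FiniteDimensional ℝ E] [FiniteDimensional ℝ H] in
lemma continuousOn_act (b : OrthonormalBasis ι ℝ H) (p : PiLp 2 (fun _ : ι => E)) {g : E → H}
    (hg : ContDiffOn ℝ 1 g {0}ᶜ) : ContDiffOn ℝ 1 (fun y => act b p (g y)) {0}ᶜ :=
  (act b p).contDiff.comp_contDiffOn hg

omit [FiniteDimensional ℝ E] [FiniteDimensional ℝ H] in
lemma OddMap.ne_zero {g : E → H} {R : ℝ} (hR : 0 < R) (hg : OddMap g R) {y : E} (hy : y ≠ 0) :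
    g y ≠ 0 := by
  rw [← norm_ne_zero_iff, hg.norm]
  exact mul_ne_zero hR.ne' (norm_ne_zero_iff.2 hy)

omit [FiniteDimensional ℝ H] in
lemma surj_act (b : OrthonormalBasis ι ℝ H) (p : PiLp 2 (fun _ : ι => E)) {g : E → H} {R : ℝ}
    (hg : OddMap g R) (h0 : ∀ y, y ≠ 0 → act b p (g y) ≠ 0) :
    ∀ z, z ≠ 0 → ∃ y, y ≠ 0 ∧ act b p (g y) = z :=
  surj_of_odd (F := fun y => act b p (g y)) (continuousOn_act b p hg.smooth).continuousOn
    (fun y t ht => by simp only [hg.homog y t ht, map_smul]) (fun y => by simp only [hg.odd, map_neg])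
    h0

variable [MeasurableSpace E] [BorelSpace E]

theorem lintegral_Psi_polar [Nontrivial E] (b : OrthonormalBasis ι ℝ H) {g : E → H} {R : ℝ}
    (hR : 0 < R) (hg : OddMap g R) (Q₀ : E →ₗᵢ[ℝ] H) {e₀ : E} (he : ‖e₀‖ = 1) :
    ∫⁻ y, Psi b (fderiv ℝ g y) y
      = (∫⁻ u : sphere (0 : E) 1, ENNReal.ofReal (Jac (fderiv ℝ g u))
            ∂(volume : Measure E).toSphere)
        * (ENNReal.ofReal (R ^ finrank ℝ E)⁻¹
          * ∫⁻ r in Ioi (0 : ℝ), ENNReal.ofReal (r ^ (finrank ℝ E - 1))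
              * Psi b Q₀.toContinuousLinearMap (r • e₀)) :=
  lintegral_Psi_polar_of_Psi_eq b hR hg Q₀ he (fun D y w hw => Psi_eq b Q₀ D y w hw)

lemma core_ge [Nontrivial E] (b : OrthonormalBasis ι ℝ H) {g : E → H} {R : ℝ} (hR : 0 < R)
    (hg : OddMap g R) :
    (∫⁻ p : PiLp 2 (fun _ : ι => E), gw p) * volume (ball (0 : E) 1)
      ≤ ∫⁻ y, Psi b (fderiv ℝ g y) y := by
  rw [lintegral_Psi b hg.smooth hg.homog, ← lintegral_mul_const' _ _ measure_ball_lt_top.ne]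
  refine lintegral_mono_ae ?_
  filter_upwards [ae_act_ne_zero b hg.smooth hg.homog (fun y hy => hg.ne_zero hR hy)] with p hp
  refine mul_le_mul_right ?_ _
  have h1 := ball_add_le (continuousOn_act b p hg.smooth) (surj_act b p hg hp) (U₁ := ∅) (U₂ := ∅)
    (O := ∅) isOpen_empty isOpen_empty (empty_subset _) (notMem_empty _) (notMem_empty _)
    (disjoint_empty _) (empty_subset _) (empty_subset _)
  rwa [measure_empty, add_zero] at h1

omit [FiniteDimensional ℝ E] [FiniteDimensional ℝ H] [MeasurableSpace E] [BorelSpace E] in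
/-- Euler's identity. -/
lemma euler {g : E → H} (hom : ∀ (y : E) (t : ℝ), 0 < t → g (t • y) = t • g y) {y : E}
    (hd : DifferentiableAt ℝ g y) : fderiv ℝ g y y = g y := by
  have h1 : HasFDerivAt g (fderiv ℝ g y) ((1 : ℝ) • y) := by rw [one_smul]; exact hd.hasFDerivAt
  have h2 : HasDerivAt (fun t : ℝ => t • y) y 1 := by
    simpa using (hasDerivAt_id (1 : ℝ)).smul_const y
  have h3 : HasDerivAt (fun t : ℝ => g (t • y)) (fderiv ℝ g y y) 1 := h1.comp_hasDerivAt 1 h2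
  have h4 : HasDerivAt (fun t : ℝ => t • g y) (g y) 1 := by
    simpa using (hasDerivAt_id (1 : ℝ)).smul_const (g y)
  have h5 : (fun t : ℝ => g (t • y)) =ᶠ[𝓝 1] fun t : ℝ => t • g y := by
    filter_upwards [lt_mem_nhds (zero_lt_one (α := ℝ))] with t ht using hom y t ht
  exact (h3.congr_of_eventuallyEq h5.symm).unique h4

omit [FiniteDimensional ℝ E] [FiniteDimensional ℝ H] [MeasurableSpace E] [BorelSpace E] in
/-- the derivative is homogeneous of degree zero. -/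
lemma fderiv_homog {g : E → H} (hom : ∀ (y : E) (t : ℝ), 0 < t → g (t • y) = t • g y) {y : E}
    (hd : DifferentiableAt ℝ g y) {t : ℝ} (ht : 0 < t) : fderiv ℝ g (t • y) = fderiv ℝ g y := by
  have h1 : HasFDerivAt (fun z : E => t • g (t⁻¹ • z)) (fderiv ℝ g y) (t • y) := by
    have h2 : HasFDerivAt (fun z : E => t⁻¹ • z) (t⁻¹ • ContinuousLinearMap.id ℝ E) (t • y) :=
      (hasFDerivAt_id _).const_smul t⁻¹
    have h3 : HasFDerivAt g (fderiv ℝ g y) (t⁻¹ • t • y) := by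
      rw [smul_smul, inv_mul_cancel₀ ht.ne', one_smul]; exact hd.hasFDerivAt
    have h4 := (h3.comp (t • y) h2).const_smul t
    have h6 : fderiv ℝ g y = t • (fderiv ℝ g y ∘L (t⁻¹ • ContinuousLinearMap.id ℝ E)) := by
      ext v
      simp [smul_smul, mul_inv_cancel₀ ht.ne']
    rw [h6]
    exact h4
  have h5 : (fun z : E => t • g (t⁻¹ • z)) = g := by
    funext z
    rw [hom z t⁻¹ (inv_pos.2 ht), smul_smul, mul_inv_cancel₀ ht.ne', one_smul]
  rw [h5] at h1
  exact h1.fderiv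

lemma core_gt [Nontrivial E] (b : OrthonormalBasis ι ℝ H) {g : E → H} {R : ℝ} (hR : 0 < R)
    (hg : OddMap g R) {x₁ x₂ : E} (hx₁ : ‖x₁‖ = 1) (hx₂ : ‖x₂‖ = 1)
    (hi₁ : Function.Injective (fderiv ℝ g x₁)) (hi₂ : Function.Injective (fderiv ℝ g x₂))
    (h1 : g x₂ ∉ range (fderiv ℝ g x₁)) (h2 : g x₁ ∉ range (fderiv ℝ g x₂)) :
    (∫⁻ p : PiLp 2 (fun _ : ι => E), gw p) * volume (ball (0 : E) 1)
      < ∫⁻ y, Psi b (fderiv ℝ g y) y := by
  have hx₁0 : x₁ ≠ 0 := fun h => by rw [h, norm_zero] at hx₁; exact zero_ne_one hx₁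
  have hx₂0 : x₂ ≠ 0 := fun h => by rw [h, norm_zero] at hx₂; exact zero_ne_one hx₂
  have hcd : ∀ y : E, y ≠ 0 → ContDiffAt ℝ 1 g y := fun y hy =>
    hg.smooth.contDiffAt (isOpen_compl_singleton.mem_nhds hy)
  have hdf : ∀ y : E, y ≠ 0 → DifferentiableAt ℝ g y := fun y hy =>
    (hcd y hy).differentiableAt one_ne_zero
  have e1 := euler hg.homog (hdf x₁ hx₁0)
  have e2 := euler hg.homog (hdf x₂ hx₂0)
  have hh1 : g x₁ - g x₂ ∉ range (fderiv ℝ g x₁) := by
    rintro ⟨v, hv⟩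
    refine h1 ⟨x₁ - v, ?_⟩
    rw [map_sub, e1, hv, sub_sub_cancel]
  have hh2 : g x₁ - g x₂ ∉ range (fderiv ℝ g x₂) := by
    rintro ⟨v, hv⟩
    refine h2 ⟨x₂ + v, ?_⟩
    rw [map_add, e2, hv, add_sub_cancel]
  obtain ⟨p₀, hp0, hd1, hd2⟩ := exists_proj b _ _ hi₁ hi₂ _ hh1 hh2
  set v : E := act b p₀ (g x₁) with hv
  have hv2 : act b p₀ (g x₂) = v := by
    rw [map_sub, sub_eq_zero] at hp0
    exact hp0.symm
  set t : ℝ := (‖v‖ + 1)⁻¹ with ht
  have hv0 : 0 ≤ ‖v‖ := norm_nonneg v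
  have ht0 : 0 < t := by rw [ht]; positivity
  have htv : ‖t • v‖ < 1 := by
    rw [norm_smul, Real.norm_eq_abs, abs_of_pos ht0, ht, inv_mul_lt_iff₀ (by positivity)]
    linarith
  have hx12 : x₁ ≠ x₂ := by
    rintro rfl
    exact h1 ⟨x₁, e1⟩
  have hy12 : t • x₁ ≠ t • x₂ := fun h => hx12 (smul_right_injective E ht0.ne' h)
  have hy1 : t • x₁ ≠ 0 := smul_ne_zero ht0.ne' hx₁0
  have hy2 : t • x₂ ≠ 0 := smul_ne_zero ht0.ne' hx₂0
  obtain ⟨V₁, V₂, hV₁, hV₂, hm1, hm2, hdis⟩ := t2_separation hy12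
  set U₁ : Set E := V₁ ∩ {0}ᶜ with hU₁
  set U₂ : Set E := V₂ ∩ {0}ᶜ with hU₂
  have hU₁o : IsOpen U₁ := hV₁.inter isOpen_compl_singleton
  have hU₂o : IsOpen U₂ := hV₂.inter isOpen_compl_singleton
  have hc1 := eventually_covers b (hcd _ hy1) p₀ (by rwa [fderiv_homog hg.homog (hdf _ hx₁0) ht0])
    (hU₁o.mem_nhds ⟨hm1, hy1⟩)
  have hc2 := eventually_covers b (hcd _ hy2) p₀ (by rwa [fderiv_homog hg.homog (hdf _ hx₂0) ht0])
    (hU₂o.mem_nhds ⟨hm2, hy2⟩)
  rw [hg.homog _ _ ht0, map_smul] at hc1 hc2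
  rw [hv2] at hc2
  rw [← hv] at hc1
  obtain ⟨N, O, hN, hpN, hO, htO, hNO⟩ := mem_nhds_prod_iff'.1 (hc1.and hc2)
  set O' : Set E := O ∩ ball 0 1 with hO'
  have hO'o : IsOpen O' := hO.inter isOpen_ball
  have htO' : t • v ∈ O' := ⟨htO, by rwa [mem_ball_zero_iff]⟩
  have hμO : 0 < volume O' := hO'o.measure_pos volume ⟨_, htO'⟩
  -- the integral of the weight over `N`
  have hZ1 : 0 < ∫⁻ p in N, gw p := by
    have hcont : Continuous (gw : PiLp 2 (fun _ : ι => E) → ℝ≥0∞) := by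
      exact ENNReal.continuous_ofReal.comp
        (Real.continuous_exp.comp ((continuous_norm.pow 2).div_const 2).neg)
    rw [setLIntegral_pos_iff hcont.measurable]
    have hsup : Function.support (gw : PiLp 2 (fun _ : ι => E) → ℝ≥0∞) = univ := by
      ext p
      simp [gw, Real.exp_pos]
    rw [hsup, univ_inter]
    exact hN.measure_pos volume ⟨_, hpN⟩
  rw [lintegral_Psi b hg.smooth hg.homog]
  have hkey : (∫⁻ p : PiLp 2 (fun _ : ι => E), gw p) * volume (ball (0 : E) 1)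
      + (∫⁻ p in N, gw p) * volume O' ≤
      ∫⁻ p : PiLp 2 (fun _ : ι => E), gw p * ∫⁻ y, {y : E | ‖act b p (g y)‖ < 1}.indicator
          (fun y => ENNReal.ofReal |(fderiv ℝ (fun y => act b p (g y)) y).det|) y := by
    have hO't : volume O' ≠ ⊤ := ((measure_mono inter_subset_right).trans_lt
      (measure_ball_lt_top (x := (0 : E)) (r := 1))).ne
    rw [← lintegral_mul_const' _ _ measure_ball_lt_top.ne, ← lintegral_mul_const' _ _ hO't,
      ← lintegral_indicator hN.measurableSet]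
    refine (le_lintegral_add _ _).trans (lintegral_mono_ae ?_)
    filter_upwards [ae_act_ne_zero b hg.smooth hg.homog (fun y hy => hg.ne_zero hR hy)] with p hp
    by_cases hpN' : p ∈ N
    · rw [indicator_of_mem hpN', ← mul_add]
      refine mul_le_mul_right ?_ _
      refine ball_add_le (continuousOn_act b p hg.smooth) (surj_act b p hg hp) (U₁ := U₁) (U₂ := U₂)
        (O := O') hU₁o hO'o inter_subset_right (fun h => h.2 rfl) (fun h => h.2 rfl)
        (hdis.mono inter_subset_left inter_subset_left) ?_ ?_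
      · rintro z ⟨hz, -⟩
        obtain ⟨y, hy, hyz⟩ := (hNO (mk_mem_prod hpN' hz)).1
        exact ⟨y, hy, hyz⟩
      · rintro z ⟨hz, -⟩
        obtain ⟨y, hy, hyz⟩ := (hNO (mk_mem_prod hpN' hz)).2
        exact ⟨y, hy, hyz⟩
    · rw [indicator_of_notMem hpN', add_zero]
      refine mul_le_mul_right ?_ _
      have h1 := ball_add_le (continuousOn_act b p hg.smooth) (surj_act b p hg hp) (U₁ := ∅) (U₂ := ∅)
        (O := ∅) isOpen_empty isOpen_empty (empty_subset _) (notMem_empty _) (notMem_empty _)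
        (disjoint_empty _) (empty_subset _) (empty_subset _)
      rwa [measure_empty, add_zero] at h1
  refine lt_of_lt_of_le ?_ hkey
  refine ENNReal.lt_add_right ?_ (ENNReal.mul_pos hZ1.ne' hμO.ne').ne'
  exact (ENNReal.mul_lt_top lintegral_gw_lt_top measure_ball_lt_top).ne

omit [FiniteDimensional ℝ E] [FiniteDimensional ℝ H] [MeasurableSpace E] [BorelSpace E] in
lemma oddMap_isometry (Q₀ : E →ₗᵢ[ℝ] H) : OddMap (Q₀.toContinuousLinearMap : E → H) 1 where
  smooth := Q₀.toContinuousLinearMap.contDiff.contDiffOn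
  homog := fun y t _ => by simp
  odd := fun y => by simp
  norm := fun y => by simp

lemma toSphere_univ_ne_zero [Nontrivial E] : (volume : Measure E).toSphere univ ≠ 0 :=
  fun h => Measure.toSphere_ne_zero (μ := (volume : Measure E)) (Measure.measure_univ_eq_zero.1 h)

/-- the common part of the two theorems. -/
lemma crofton_aux [Nontrivial E] {g : E → H} {R : ℝ} (hR : 0 < R) (hg : OddMap g R)
    (Q₀ : E →ₗᵢ[ℝ] H) (b : OrthonormalBasis ι ℝ H) :
    ∃ C : ℝ≥0∞, C ≠ 0 ∧ C ≠ ⊤ ∧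
      (volume : Measure E).toSphere univ * C ≤
        (∫⁻ p : PiLp 2 (fun _ : ι => E), gw p) * volume (ball (0 : E) 1) ∧
      ∫⁻ y, Psi b (fderiv ℝ g y) y =
        ((∫⁻ u : sphere (0 : E) 1, ENNReal.ofReal (Jac (fderiv ℝ g u))
            ∂(volume : Measure E).toSphere) * ENNReal.ofReal (R ^ finrank ℝ E)⁻¹) * C := by
  obtain ⟨e₀, he⟩ := exists_norm_eq E (zero_le_one (α := ℝ))
  set C : ℝ≥0∞ := ∫⁻ r in Ioi (0 : ℝ), ENNReal.ofReal (r ^ (finrank ℝ E - 1))
              * Psi b Q₀.toContinuousLinearMap (r • e₀) with hC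
  have hpol := lintegral_Psi_polar b hR hg Q₀ he
  have hpol0 := lintegral_Psi_polar b one_pos (oddMap_isometry Q₀) Q₀ he
  rw [← hC] at hpol hpol0
  have hfd : ∀ y : E, fderiv ℝ (Q₀.toContinuousLinearMap : E → H) y = Q₀.toContinuousLinearMap :=
    fun y => ContinuousLinearMap.fderiv _
  simp only [hfd, Jac_isometry, one_pow, inv_one, ENNReal.ofReal_one, one_mul,
    lintegral_const] at hpol0
  have hle := lintegral_Psi_isometry_le b Q₀
  rw [hpol0] at hle
  have hB : 0 < volume (ball (0 : E) 1) := measure_ball_pos _ _ one_pos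
  have hB' : volume (ball (0 : E) 1) < ⊤ := measure_ball_lt_top
  have hZ := lintegral_gw_pos (E := E) (ι := ι)
  have hZ' := lintegral_gw_lt_top (E := E) (ι := ι)
  have hZB : 0 < (∫⁻ p : PiLp 2 (fun _ : ι => E), gw p) * volume (ball (0 : E) 1) :=
    ENNReal.mul_pos hZ.ne' hB.ne'
  have hZB' : (∫⁻ p : PiLp 2 (fun _ : ι => E), gw p) * volume (ball (0 : E) 1) < ⊤ :=
    ENNReal.mul_lt_top hZ' hB'
  refine ⟨C, ?_, ?_, hle, ?_⟩
  · intro h0
    have h1 := core_ge b hR hg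
    rw [hpol, h0, mul_zero, mul_zero] at h1
    exact absurd (hZB.trans_le h1) (lt_irrefl _)
  · intro h0
    rw [h0, ENNReal.mul_top toSphere_univ_ne_zero] at hle
    exact absurd (hle.trans_lt hZB') (lt_irrefl _)
  · rw [hpol, mul_assoc]

lemma ofReal_mul_le {a : ℝ} (ha : 0 < a) {x y : ℝ≥0∞} (h : x ≤ y * ENNReal.ofReal a⁻¹) :
    ENNReal.ofReal a * x ≤ y := by
  calc ENNReal.ofReal a * x ≤ ENNReal.ofReal a * (y * ENNReal.ofReal a⁻¹) := mul_le_mul_right h _
    _ = (ENNReal.ofReal a * ENNReal.ofReal a⁻¹) * y := by ring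
    _ = y := by
      rw [← ENNReal.ofReal_mul ha.le, mul_inv_cancel₀ ha.ne', ENNReal.ofReal_one, one_mul]

lemma ofReal_mul_lt {a : ℝ} (ha : 0 < a) {x y : ℝ≥0∞} (h : x < y * ENNReal.ofReal a⁻¹) :
    ENNReal.ofReal a * x < y := by
  by_contra hn
  rw [not_lt] at hn
  have h1 : y * ENNReal.ofReal a⁻¹ ≤ x := by
    calc y * ENNReal.ofReal a⁻¹ ≤ (ENNReal.ofReal a * x) * ENNReal.ofReal a⁻¹ := mul_le_mul_left hn _
      _ = (ENNReal.ofReal a * ENNReal.ofReal a⁻¹) * x := by ring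
      _ = x := by
        rw [← ENNReal.ofReal_mul ha.le, mul_inv_cancel₀ ha.ne', ENNReal.ofReal_one, one_mul]
  exact absurd (h.trans_le h1) (lt_irrefl _)

theorem crofton_ge [Nontrivial E] {g : E → H} {R : ℝ} (hR : 0 < R) (hg : OddMap g R)
    (Q₀ : E →ₗᵢ[ℝ] H) :
    ENNReal.ofReal (R ^ finrank ℝ E) * (volume : Measure E).toSphere univ
      ≤ ∫⁻ u : sphere (0 : E) 1, ENNReal.ofReal (Jac (fderiv ℝ g u))
            ∂(volume : Measure E).toSphere := by
  obtain ⟨C, hC0, hCt, h1, h2⟩ := crofton_aux hR hg Q₀ (stdOrthonormalBasis ℝ H)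
  have h3 := core_ge (stdOrthonormalBasis ℝ H) hR hg
  rw [h2] at h3
  exact ofReal_mul_le (pow_pos hR _) ((ENNReal.mul_le_mul_iff_left hC0 hCt).1 (h1.trans h3))

theorem crofton_gt [Nontrivial E] {g : E → H} {R : ℝ} (hR : 0 < R) (hg : OddMap g R)
    (Q₀ : E →ₗᵢ[ℝ] H) {x₁ x₂ : E} (hx₁ : ‖x₁‖ = 1) (hx₂ : ‖x₂‖ = 1)
    (hi₁ : Function.Injective (fderiv ℝ g x₁)) (hi₂ : Function.Injective (fderiv ℝ g x₂))
    (h1 : g x₂ ∉ range (fderiv ℝ g x₁)) (h2 : g x₁ ∉ range (fderiv ℝ g x₂)) :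
    ENNReal.ofReal (R ^ finrank ℝ E) * (volume : Measure E).toSphere univ
      < ∫⁻ u : sphere (0 : E) 1, ENNReal.ofReal (Jac (fderiv ℝ g u))
            ∂(volume : Measure E).toSphere := by
  obtain ⟨C, hC0, hCt, h3, h4⟩ := crofton_aux hR hg Q₀ (stdOrthonormalBasis ℝ H)
  have h5 := core_gt (stdOrthonormalBasis ℝ H) hR hg hx₁ hx₂ hi₁ hi₂ h1 h2
  rw [h4] at h5
  exact ofReal_mul_lt (pow_pos hR _) ((ENNReal.mul_lt_mul_iff_left hC0 hCt).1 (h3.trans_lt h5))

end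

end Pool.Agent.Helper19.HO
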