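import Pool.Agent.Helper19.HO.Defs

open MeasureTheory Set Metric Filter Module
open scoped NNReal Topology RealInnerProductSpace ENNReal Real ContDiff Manifold

namespace Pool.Agent.Helper19.HO

section

variable {E : Type*} [NormedAddCommGroup E] [InnerProductSpace ℝ E]

lemma p19_euler {g : E → E} (hom : ∀ (y : E) (t : ℝ), 0 < t → g (t • y) = t • g y) {y : E}
    (hd : DifferentiableAt ℝ g y) : fderiv ℝ g y y = g y := by
  have h1 : HasFDerivAt g (fderiv ℝ g y) ((1 : ℝ) • y) := by rw [one_smul]; exact hd.hasFDerivAt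
  have h2 : HasDerivAt (fun t : ℝ => t • y) y 1 := by
    simpa using (hasDerivAt_id (1 : ℝ)).smul_const y
  have h3 : HasDerivAt (fun t : ℝ => g (t • y)) (fderiv ℝ g y y) 1 := h1.comp_hasDerivAt 1 h2
  have h4 : HasDerivAt (fun t : ℝ => t • g y) (g y) 1 := by
    simpa using (hasDerivAt_id (1 : ℝ)).smul_const (g y)
  have h5 : (fun t : ℝ => g (t • y)) =ᶠ[𝓝 1] fun t : ℝ => t • g y := by
    filter_upwards [lt_mem_nhds (zero_lt_one (α := ℝ))] with t ht using hom y t ht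
  exact (h3.congr_of_eventuallyEq h5.symm).unique h4

lemma p19_fderiv_homog {g : E → E} (hom : ∀ (y : E) (t : ℝ), 0 < t → g (t • y) = t • g y) {y : E}
    (hd : DifferentiableAt ℝ g y) {t : ℝ} (ht : 0 < t) : fderiv ℝ g (t • y) = fderiv ℝ g y := by
  have h1 : HasFDerivAt (fun z : E => t • g (t⁻¹ • z)) (fderiv ℝ g y) (t • y) := by
    have h2 : HasFDerivAt (fun z : E => t⁻¹ • z) (t⁻¹ • ContinuousLinearMap.id ℝ E) (t • y) :=
      (hasFDerivAt_id _).const_smul t⁻¹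
    have h3 : HasFDerivAt g (fderiv ℝ g y) (t⁻¹ • t • y) := by
      rw [smul_smul, inv_mul_cancel₀ ht.ne', one_smul]; exact hd.hasFDerivAt
    have h4 := (h3.comp (t • y) h2).const_smul t
    have h6 : fderiv ℝ g y = t • (fderiv ℝ g y ∘L (t⁻¹ • ContinuousLinearMap.id ℝ E)) := by
      ext v
      simp [smul_smul, mul_inv_cancel₀ ht.ne']
    rw [h6]
    exact h4
  have h5 : (fun z : E => t • g (t⁻¹ • z)) = g := by
    funext z
    rw [hom z t⁻¹ (inv_pos.2 ht), smul_smul, mul_inv_cancel₀ ht.ne', one_smul]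
  rw [h5] at h1
  exact h1.fderiv

theorem linear_of_cover {w : E → E} (hw : ContDiffOn ℝ 1 w {0}ᶜ)
    (hom : ∀ (y : E) (t : ℝ), 0 < t → w (t • y) = t • w y)
    (hc : ∀ x₁ x₂ : E, ‖x₁‖ = 1 → ‖x₂‖ = 1 →
      fderiv ℝ w x₁ x₂ = w x₂ ∨ fderiv ℝ w x₂ x₁ = w x₁) :
    ∃ L : E →L[ℝ] E, ∀ y, w y = L y := by
  have hdf : ∀ y : E, y ≠ 0 → DifferentiableAt ℝ w y := fun y hy =>
    (hw.contDiffAt (isOpen_compl_singleton.mem_nhds hy)).differentiableAt one_ne_zero
  have hcont : ContinuousOn (fderiv ℝ w) {0}ᶜ :=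
    hw.continuousOn_fderiv_of_isOpen isOpen_compl_singleton le_rfl
  have hw0 : w 0 = 0 := by
    have h := hom 0 2 (by norm_num)
    rw [smul_zero, two_smul] at h
    exact left_eq_add.1 h
  have hn : ∀ y : E, y ≠ 0 → ‖‖y‖⁻¹ • y‖ = 1 := fun y hy => by
    rw [norm_smul, norm_inv, norm_norm, inv_mul_cancel₀ (norm_ne_zero_iff.2 hy)]
  -- the key claim
  have key : ∀ x₁ : E, ‖x₁‖ = 1 → ∀ y : E, y ≠ 0 → fderiv ℝ w y x₁ = w x₁ := by
    intro x₁ hx₁ y hy
    have hx0 : x₁ ≠ 0 := fun h => by rw [h, norm_zero] at hx₁; exact zero_ne_one hx₁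
    have hcov : ∀ z : E, z ≠ 0 → fderiv ℝ w x₁ z = w z ∨ fderiv ℝ w z x₁ = w x₁ := by
      intro z hz
      have hz' : 0 < ‖z‖⁻¹ := inv_pos.2 (norm_pos_iff.2 hz)
      rcases hc x₁ (‖z‖⁻¹ • z) hx₁ (hn z hz) with h | h
      · left
        rw [map_smul, hom z _ hz'] at h
        exact smul_right_injective E hz'.ne' h
      · right
        rw [p19_fderiv_homog hom (hdf z hz) hz'] at h
        exact h
    by_cases hint : y ∈ interior {z : E | fderiv ℝ w x₁ z = w z}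
    · have h1 : w =ᶠ[𝓝 y] fun z => fderiv ℝ w x₁ z := by
        filter_upwards [mem_interior_iff_mem_nhds.1 hint] with z hz using hz.symm
      have h2 : fderiv ℝ w y = fderiv ℝ w x₁ := by
        rw [h1.fderiv_eq]
        exact (fderiv ℝ w x₁).hasFDerivAt.fderiv
      rw [h2]
      exact p19_euler hom (hdf x₁ hx0)
    · have h1 : y ∈ closure {z : E | z ≠ 0 ∧ fderiv ℝ w z x₁ = w x₁} := by
        rw [mem_closure_iff_nhds]
        intro U hU
        have h2 : ¬ (U ∩ {0}ᶜ ⊆ {z : E | fderiv ℝ w x₁ z = w z}) := fun h =>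
          hint (mem_interior_iff_mem_nhds.2 (mem_of_superset
            (inter_mem hU (isOpen_compl_singleton.mem_nhds hy)) h))
        obtain ⟨z, ⟨hzU, hz0⟩, hz⟩ := not_subset.1 h2
        exact ⟨z, hzU, hz0, (hcov z hz0).resolve_left hz⟩
      have h3 : ContinuousWithinAt (fun z => fderiv ℝ w z x₁)
          {z : E | z ≠ 0 ∧ fderiv ℝ w z x₁ = w x₁} y :=
        ((hcont y hy).clm_apply continuousWithinAt_const).mono (fun z hz => hz.1)
      have h4 := h3.mem_closure h1 (t := {w x₁}) (fun z hz => hz.2)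
      rwa [closure_singleton, mem_singleton_iff] at h4
  by_cases hE : ∃ y₀ : E, y₀ ≠ 0
  · obtain ⟨y₀, hy₀⟩ := hE
    refine ⟨fderiv ℝ w y₀, fun x => ?_⟩
    by_cases hx : x = 0
    · rw [hx, hw0, map_zero]
    · have hx' : 0 < ‖x‖⁻¹ := inv_pos.2 (norm_pos_iff.2 hx)
      have h1 := key (‖x‖⁻¹ • x) (hn x hx) y₀ hy₀
      rw [map_smul, hom x _ hx'] at h1
      exact (smul_right_injective E hx'.ne' h1).symm
  · push_neg at hE
    exact ⟨0, fun y => by rw [hE y, hw0, map_zero]⟩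

end

end Pool.Agent.Helper19.HO
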