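import Pool.Agent.Helper19.HO.Crofton
import Pool.Agent.Helper19.HO.P19
import Pool.Agent.Helper49.HO.P20
import Pool.Agent.Helper63.HO.P21
import Pool.Agent.Helper83.HO.P22
import Pool.Agent.Helper64.HO.P23
import Pool.Agent.Helper90.HO.P24
import Pool.Agent.Helper64.HO.P25
import Pool.Agent.Helper20.VF.CovD
import Pool.Agent.Helper20.VF.Sphere
import Pool.Agent.Helper39.PU.P1

/-!
# Project HO: odd fields of constant length
-/

open MeasureTheory Set Metric Filter Module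
open scoped NNReal Topology RealInnerProductSpace ENNReal Real ContDiff Manifold

namespace Pool.Agent.Helper19.HO

section

variable {E : Type*} [NormedAddCommGroup E] [InnerProductSpace ℝ E] [FiniteDimensional ℝ E]

/-- volume density. -/
noncomputable def dens (W : sphere (0 : E) 1 → E) (x : sphere (0 : E) 1) : ℝ :=
  √((1 + (covDeriv W x).adjoint ∘L covDeriv W x).det)

variable {k : ℕ} [Fact (finrank ℝ E = k + 1)]

lemma coe_ne_zero (x : sphere (0 : E) 1) : (x : E) ≠ 0 := by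
  intro h
  have h4 := mem_sphere_zero_iff_norm.1 x.2
  rw [h, norm_zero] at h4
  exact zero_ne_one h4

lemma continuous_covDeriv {W : sphere (0 : E) 1 → E} (hW : ContMDiff (𝓡 k) 𝓘(ℝ, E) 1 W) :
    Continuous (covDeriv W) := by
  have h1 : ContDiffOn ℝ 1 (radExt W) {0}ᶜ := fun y hy =>
    (Pool.Agent.Helper20.VF.contDiffAt_radExt hW hy).contDiffWithinAt
  have h2 : ContinuousOn (fderiv ℝ (radExt W)) {0}ᶜ :=
    h1.continuousOn_fderiv_of_isOpen isOpen_compl_singleton le_rfl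
  have h3 : Continuous (fun x : sphere (0 : E) 1 => fderiv ℝ (radExt W) (x : E)) :=
    h2.comp_continuous continuous_subtype_val coe_ne_zero
  have h4 : covDeriv W = fun x : sphere (0 : E) 1 => fderiv ℝ (radExt W) (x : E)
      - ContinuousLinearMap.smulRightL ℝ E E ((innerSL ℝ (x : E)) ∘L fderiv ℝ (radExt W) (x : E))
        (x : E) := by
    funext x
    ext δ
    simp [covDeriv]
  rw [h4]
  refine h3.sub ?_
  have h5 : Continuous (fun x : sphere (0 : E) 1 => (innerSL ℝ (x : E)) ∘L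
      fderiv ℝ (radExt W) (x : E)) :=
    (((innerSL ℝ (E := E)).continuous.comp continuous_subtype_val)).clm_comp h3
  exact (((ContinuousLinearMap.smulRightL ℝ E E).continuous.comp h5)).clm_apply
    continuous_subtype_val

lemma continuous_dens {W : sphere (0 : E) 1 → E} (hW : ContMDiff (𝓡 k) 𝓘(ℝ, E) 1 W) :
    Continuous (dens W) := by
  have h : Continuous (Pool.Agent.Helper20.VF.volDens : (E →L[ℝ] E) → ℝ) :=
    Pool.Agent.Helper20.VF.continuous_volDens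
  exact h.comp (continuous_covDeriv hW)

variable [MeasurableSpace E] [BorelSpace E]

lemma integral_dens {W : sphere (0 : E) 1 → E} (hW : ContMDiff (𝓡 k) 𝓘(ℝ, E) 1 W) :
    ENNReal.ofReal (∫ x, dens W x ∂(volume : Measure E).toSphere)
      = ∫⁻ x, ENNReal.ofReal (dens W x) ∂(volume : Measure E).toSphere := by
  refine ofReal_integral_eq_lintegral_ofReal ?_ (Eventually.of_forall fun x => Real.sqrt_nonneg _)
  exact (continuous_dens hW).integrable_of_hasCompactSupport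
    (HasCompactSupport.of_compactSpace _)

end

section

variable {E : Type*} [NormedAddCommGroup E] [InnerProductSpace ℝ E] [FiniteDimensional ℝ E]
  [MeasurableSpace E] [BorelSpace E] {m : ℕ} [Fact (finrank ℝ E = 2 * m + 1 + 1)]

/-- the isometry `y ↦ (y, 0)`. -/
noncomputable def emb : E →ₗᵢ[ℝ] WithLp 2 (E × E) where
  toFun y := WithLp.toLp 2 (y, 0)
  map_add' := fun x y => by rw [← WithLp.toLp_add, Prod.mk_add_mk, add_zero]
  map_smul' := fun c x => by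
    rw [← WithLp.toLp_smul, Prod.smul_mk, smul_zero]; rfl
  norm_map' := fun x => by simp [WithLp.prod_norm_eq_of_L2]

lemma Jac_le {W : sphere (0 : E) 1 → E} (hW : ContMDiff (𝓡 (2 * m + 1)) 𝓘(ℝ, E) 1 W)
    (ht : ∀ x : sphere (0 : E) 1, ⟪(x : E), W x⟫ = 0) {r : ℝ} (hn : ∀ x, ‖W x‖ = r)
    (x : sphere (0 : E) 1) : Jac (fderiv ℝ (gmap W) x) ≤ (1 + r ^ 2) * dens W x := by
  rw [Jac_gmap hW (coe_ne_zero x)]
  exact sqrt_det_le (mem_sphere_zero_iff_norm.1 x.2) (hn x) (ht x) (covDeriv_self hW x)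
    (inner_covDeriv W x) (inner_field_covDeriv hW ht hn x) (fderiv_hext_apply hW ht x)

lemma lintegral_Jac_le {W : sphere (0 : E) 1 → E} (hW : ContMDiff (𝓡 (2 * m + 1)) 𝓘(ℝ, E) 1 W)
    (ht : ∀ x : sphere (0 : E) 1, ⟪(x : E), W x⟫ = 0) {r : ℝ} (hn : ∀ x, ‖W x‖ = r) :
    ∫⁻ u : sphere (0 : E) 1, ENNReal.ofReal (Jac (fderiv ℝ (gmap W) u))
        ∂(volume : Measure E).toSphere
      ≤ ENNReal.ofReal ((1 + r ^ 2) * ∫ x, dens W x ∂(volume : Measure E).toSphere) := by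
  have hr : (0 : ℝ) ≤ 1 + r ^ 2 := by positivity
  rw [ENNReal.ofReal_mul hr, integral_dens hW, ← lintegral_const_mul' _ _ ENNReal.ofReal_ne_top]
  refine lintegral_mono fun x => ?_
  rw [← ENNReal.ofReal_mul hr]
  exact ENNReal.ofReal_le_ofReal (Jac_le hW ht hn x)

lemma pow_sqrt (r : ℝ) : √(1 + r ^ 2) ^ (2 * m + 2) = (1 + r ^ 2) * (1 + r ^ 2) ^ m := by
  have hr : (0 : ℝ) ≤ 1 + r ^ 2 := by positivity
  rw [show 2 * m + 2 = 2 * (m + 1) by ring, pow_mul, Real.sq_sqrt hr, pow_succ']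

theorem odd_ge {W : sphere (0 : E) 1 → E} (hW : ContMDiff (𝓡 (2 * m + 1)) 𝓘(ℝ, E) 1 W)
    (ht : ∀ x : sphere (0 : E) 1, ⟪(x : E), W x⟫ = 0) {r : ℝ} (hn : ∀ x, ‖W x‖ = r)
    (hodd : ∀ x, W (-x) = -W x) :
    (1 + r ^ 2) ^ m * (volume : Measure E).toSphere.real univ
      ≤ ∫ x, dens W x ∂(volume : Measure E).toSphere := by
  have hfr : finrank ℝ E = 2 * m + 2 := Fact.out (p := finrank ℝ E = 2 * m + 1 + 1)
  have hnt : Nontrivial E := Module.nontrivial_of_finrank_pos (R := ℝ) (by omega)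
  have hr : (0 : ℝ) < 1 + r ^ 2 := by positivity
  have h1 := (crofton_ge (Real.sqrt_pos.2 hr) (oddMap_gmap hW hodd hn) emb).trans
    (lintegral_Jac_le hW ht hn)
  have hI : 0 ≤ ∫ x, dens W x ∂(volume : Measure E).toSphere :=
    integral_nonneg fun x => Real.sqrt_nonneg _
  rw [hfr, pow_sqrt, ← ofReal_measureReal, ← ENNReal.ofReal_mul (by positivity),
    ENNReal.ofReal_le_ofReal_iff (mul_nonneg hr.le hI), mul_assoc, mul_le_mul_iff_right₀ hr] at h1
  exact h1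

theorem odd_eq {W : sphere (0 : E) 1 → E} (hW : ContMDiff (𝓡 (2 * m + 1)) 𝓘(ℝ, E) 1 W)
    (ht : ∀ x : sphere (0 : E) 1, ⟪(x : E), W x⟫ = 0) {r : ℝ} (hn : ∀ x, ‖W x‖ = r)
    (hodd : ∀ x, W (-x) = -W x)
    (heq : ∫ x, dens W x ∂(volume : Measure E).toSphere
      = (1 + r ^ 2) ^ m * (volume : Measure E).toSphere.real univ) :
    ∃ L : E →L[ℝ] E, ∀ y, hext W y = L y := by
  have hfr : finrank ℝ E = 2 * m + 2 := Fact.out (p := finrank ℝ E = 2 * m + 1 + 1)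
  have hnt : Nontrivial E := Module.nontrivial_of_finrank_pos (R := ℝ) (by omega)
  have hr : (0 : ℝ) < 1 + r ^ 2 := by positivity
  refine linear_of_cover (contDiffOn_hext hW) (hext_homog W) ?_
  intro x₁ x₂ hx₁ hx₂
  by_contra hcon
  rw [not_or] at hcon
  obtain ⟨hc1, hc2⟩ := hcon
  have hx₁0 : x₁ ≠ 0 := fun h => by rw [h, norm_zero] at hx₁; exact zero_ne_one hx₁
  have hx₂0 : x₂ ≠ 0 := fun h => by rw [h, norm_zero] at hx₂; exact zero_ne_one hx₂
  have hinj : ∀ y : E, y ≠ 0 → Function.Injective (fderiv ℝ (gmap W) y) := by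
    intro y hy u v huv
    rw [fderiv_gmap hW hy, fderiv_gmap hW hy] at huv
    have := congrArg (fun z => (WithLp.ofLp z).1) huv
    simpa using this
  have hran : ∀ y z : E, y ≠ 0 → fderiv ℝ (hext W) y z ≠ hext W z →
      gmap W z ∉ range (fderiv ℝ (gmap W) y) := by
    rintro y z hy hne ⟨u, hu⟩
    rw [fderiv_gmap hW hy] at hu
    have h1 := congrArg (fun z => (WithLp.ofLp z).1) hu
    have h2 := congrArg (fun z => (WithLp.ofLp z).2) hu
    simp only [gmap] at h1 h2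
    rw [h1] at h2
    exact hne h2
  have h1 := (crofton_gt (Real.sqrt_pos.2 hr) (oddMap_gmap hW hodd hn) emb hx₁ hx₂ (hinj _ hx₁0)
    (hinj _ hx₂0) (hran _ _ hx₁0 hc1) (hran _ _ hx₂0 hc2)).trans_le (lintegral_Jac_le hW ht hn)
  rw [hfr, pow_sqrt, ← ofReal_measureReal, ← ENNReal.ofReal_mul (by positivity), heq, mul_assoc] at h1
  exact lt_irrefl _ h1

/-- linear maps with the properties of `r J`. -/
lemma structure_of_linear {L : E →L[ℝ] E} {r : ℝ} (hr : 0 < r) (hn : ∀ x, ‖L x‖ = r * ‖x‖)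
    (ht : ∀ x, ⟪x, L x⟫ = 0) :
    (∀ x y, ⟪(r⁻¹ • L) x, (r⁻¹ • L) y⟫ = ⟪x, y⟫) ∧ ∀ x, (r⁻¹ • L) ((r⁻¹ • L) x) = -x := by
  have hskew : ∀ x y, ⟪x, L y⟫ = -⟪y, L x⟫ := by
    intro x y
    have h1 := ht (x + y)
    rw [map_add, inner_add_left, inner_add_right, inner_add_right, ht, ht] at h1
    linarith
  have hin : ∀ x y, ⟪L x, L y⟫ = r ^ 2 * ⟪x, y⟫ := by
    intro x y
    have h1 : ‖L (x + y)‖ ^ 2 = r ^ 2 * ‖x + y‖ ^ 2 := by rw [hn, mul_pow]
    have h2 : ‖L x‖ ^ 2 = r ^ 2 * ‖x‖ ^ 2 := by rw [hn, mul_pow]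
    have h3 : ‖L y‖ ^ 2 = r ^ 2 * ‖y‖ ^ 2 := by rw [hn, mul_pow]
    rw [map_add, norm_add_sq_real, norm_add_sq_real] at h1
    linarith
  have hr0 := hr.ne'
  refine ⟨fun x y => ?_, fun x => ?_⟩
  · simp only [ContinuousLinearMap.smul_apply, inner_smul_left, inner_smul_right, hin,
      RCLike.conj_to_real]
    field_simp
  · refine ext_inner_left ℝ fun y => ?_
    simp only [ContinuousLinearMap.smul_apply, inner_smul_right, map_smul]
    rw [hskew y (L x), real_inner_comm, hin]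
    rw [inner_neg_right, real_inner_comm]
    field_simp

lemma hopf_facts {J : E →L[ℝ] E} (hJ : ∀ x y, ⟪J x, J y⟫ = ⟪x, y⟫) (hJJ : ∀ x, J (J x) = -x)
    (r : ℝ) (hr : 0 < r) :
    (∀ x : sphere (0 : E) 1, ⟪(x : E), r • J x⟫ = 0) ∧ (∀ x : sphere (0 : E) 1, ‖r • J x‖ = r) ∧
      ∀ x : sphere (0 : E) 1, r • J ((-x : sphere (0 : E) 1) : E) = -(r • J x) := by
  refine ⟨fun x => ?_, fun x => ?_, fun x => ?_⟩
  · have h1 : ⟪(x : E), J x⟫ = -⟪(x : E), J x⟫ := by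
      calc ⟪(x : E), J x⟫ = ⟪J x, J (J x)⟫ := (hJ _ _).symm
        _ = -⟪(x : E), J x⟫ := by rw [hJJ, inner_neg_right, real_inner_comm]
    rw [inner_smul_right]
    have h2 : ⟪(x : E), J x⟫ = 0 := by linarith
    rw [h2, mul_zero]
  · have h1 : ‖J x‖ = 1 := by
      have h2 : ‖J x‖ ^ 2 = 1 := by
        rw [← real_inner_self_eq_norm_sq, hJ, real_inner_self_eq_norm_sq,
          mem_sphere_zero_iff_norm.1 x.2, one_pow]
      have h3 : 0 ≤ ‖J x‖ := norm_nonneg _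
      nlinarith
    rw [norm_smul, h1, mul_one, Real.norm_eq_abs, abs_of_pos hr]
  · rw [show ((-x : sphere (0 : E) 1) : E) = -(x : E) from rfl, map_neg, smul_neg]

lemma contMDiff_hopf (J : E →L[ℝ] E) (r : ℝ) :
    ContMDiff (𝓡 (2 * m + 1)) 𝓘(ℝ, E) ∞ (fun x : sphere (0 : E) 1 => r • J (x : E)) := by
  have h1 : ContDiff ℝ ∞ (fun y : E => r • J y) := by fun_prop
  exact h1.contMDiff.comp contMDiff_coe_sphere

/-- characterisation of equality. -/
theorem odd_eq_iff {W : sphere (0 : E) 1 → E} (hW : ContMDiff (𝓡 (2 * m + 1)) 𝓘(ℝ, E) 1 W)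
    (ht : ∀ x : sphere (0 : E) 1, ⟪(x : E), W x⟫ = 0) {r : ℝ} (hr : 0 < r) (hn : ∀ x, ‖W x‖ = r)
    (hodd : ∀ x, W (-x) = -W x) :
    ∫ x, dens W x ∂(volume : Measure E).toSphere
      = (1 + r ^ 2) ^ m * (volume : Measure E).toSphere.real univ ↔
    ∃ J : E →L[ℝ] E, (∀ x y, ⟪J x, J y⟫ = ⟪x, y⟫) ∧ (∀ x, J (J x) = -x) ∧
      ∀ x : sphere (0 : E) 1, W x = r • J x := by
  have hfr : finrank ℝ E = 2 * m + 2 := Fact.out (p := finrank ℝ E = 2 * m + 1 + 1)
  constructor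
  · intro heq
    obtain ⟨L, hL⟩ := odd_eq hW ht hn hodd heq
    have h1 := structure_of_linear (L := L) hr (fun x => by rw [← hL, norm_hext hn])
      (fun x => by rw [← hL, inner_hext ht])
    refine ⟨r⁻¹ • L, h1.1, h1.2, fun x => ?_⟩
    rw [ContinuousLinearMap.smul_apply, smul_smul, mul_inv_cancel₀ hr.ne', one_smul, ← hL,
      hext_coe]
  · rintro ⟨J, hJ, hJJ, hWJ⟩
    have h1 : W = fun y : sphere (0 : E) 1 => r • J y := funext hWJ
    rw [h1]
    exact volume_hopf m hfr hJ hJJ hr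

lemma hopf_geodesic {J : E →L[ℝ] E} (hJ : ∀ x y, ⟪J x, J y⟫ = ⟪x, y⟫) (hJJ : ∀ x, J (J x) = -x)
    (r : ℝ) (hr : 0 < r) (hfr : finrank ℝ E = 2 * m + 2) (x : sphere (0 : E) 1) :
    covDeriv (fun y : sphere (0 : E) 1 => r • J y) x (r • J x) = 0 := by
  have hfact : Fact (finrank ℝ E = 2 * m + 1 + 1) := ⟨hfr⟩
  have hf := hopf_facts hJ hJJ r hr
  have hs := (contMDiff_hopf (m := m) J r).of_le (WithTop.coe_le_coe.2 (le_top : (1 : ℕ∞) ≤ ⊤))
  have h1 := fderiv_hext_apply hs hf.1 x (r • J x)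
  have h2 : hext (fun y : sphere (0 : E) 1 => r • J y) = fun y => r • J y := by
    funext y
    by_cases hy : y = 0
    · subst hy; simp [hext]
    · rw [hext, radExt, dif_neg hy]
      simp only [map_smul, smul_smul]
      congr 1
      have := norm_ne_zero_iff.2 hy
      field_simp
  have h3 : fderiv ℝ (fun y : E => r • J y) x = r • J := (r • J).hasFDerivAt.fderiv
  have hww : ⟪r • J (x : E), r • J (x : E)⟫ = r ^ 2 := by
    rw [real_inner_self_eq_norm_sq, hf.2.1]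
  have h4 : (r • J) (r • J (x : E)) = -(r ^ 2 • (x : E)) := by
    rw [ContinuousLinearMap.smul_apply, map_smul, hJJ, smul_smul, smul_neg, ← pow_two]
  rw [h2, h3, hf.1 x, zero_smul, add_zero, hww, h4] at h1
  have h5 := congrArg (fun z => z + r ^ 2 • (x : E)) h1
  simp only [neg_add_cancel, sub_add_cancel] at h5
  exact h5.symm

/-- The main theorem. -/
theorem main (m : ℕ) {r : ℝ} (hr : 0 < r) {E : Type*} [NormedAddCommGroup E]
    [InnerProductSpace ℝ E] [FiniteDimensional ℝ E] [MeasurableSpace E] [BorelSpace E]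
    [Fact (finrank ℝ E = 2 * m + 1 + 1)] :
    (∀ W : sphere (0 : E) 1 → E, ContMDiff (𝓡 (2 * m + 1)) 𝓘(ℝ, E) 1 W →
      (∀ x : sphere (0 : E) 1, ⟪(x : E), W x⟫ = 0) → (∀ x, ‖W x‖ = r) → (∀ x, W (-x) = -W x) →
      (1 + r ^ 2) ^ m * (volume : Measure E).toSphere.real univ
          ≤ ∫ x, dens W x ∂(volume : Measure E).toSphere ∧
        (∫ x, dens W x ∂(volume : Measure E).toSphere
            = (1 + r ^ 2) ^ m * (volume : Measure E).toSphere.real univ ↔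
          ∃ J : E →L[ℝ] E, (∀ x y, ⟪J x, J y⟫ = ⟪x, y⟫) ∧ (∀ x, J (J x) = -x) ∧
            ∀ x : sphere (0 : E) 1, W x = r • J x)) ∧
    (∀ W : sphere (0 : E) 1 → E, ContMDiff (𝓡 (2 * m + 1)) 𝓘(ℝ, E) 1 W →
      (∀ x : sphere (0 : E) 1, ⟪(x : E), W x⟫ = 0) → (∀ x, ‖W x‖ = r) →
      (∀ x, covDeriv W x (W x) = 0) → ∀ x, W (-x) = -W x) ∧
    ∃ W : sphere (0 : E) 1 → E, ContMDiff (𝓡 (2 * m + 1)) 𝓘(ℝ, E) ∞ W ∧
      (∀ x : sphere (0 : E) 1, ⟪(x : E), W x⟫ = 0) ∧ (∀ x, ‖W x‖ = r) ∧ (∀ x, W (-x) = -W x) ∧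
      (∀ x, covDeriv W x (W x) = 0) ∧
      ∫ x, dens W x ∂(volume : Measure E).toSphere
        = (1 + r ^ 2) ^ m * (volume : Measure E).toSphere.real univ := by
  have hfr : finrank ℝ E = 2 * m + 2 := Fact.out (p := finrank ℝ E = 2 * m + 1 + 1)
  refine ⟨fun W hW ht hn hodd => ⟨odd_ge hW ht hn hodd, odd_eq_iff hW ht hr hn hodd⟩,
    fun W hW ht hn hg => odd_of_geodesic hW ht hr hn hg, ?_⟩
  obtain ⟨J, hJc⟩ := Pool.Agent.Helper19.PU.exists_CS (E := E) (m + 1) (by omega)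
  have hJ := hJc.inner_map
  have hJJ := hJc.sq
  have hf := hopf_facts hJ hJJ r hr
  exact ⟨fun y : sphere (0 : E) 1 => r • J y, contMDiff_hopf J r, hf.1, hf.2.1, hf.2.2,
    hopf_geodesic (m := m) hJ hJJ r hr hfr, volume_hopf m hfr hJ hJJ hr⟩

end

end Pool.Agent.Helper19.HO
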